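import Pool.Agent.Lib.MP_263316_co.LV2.All

/-!
MP_263316_co, project T2 (helper19): level two for every vertex set.
-/

set_option autoImplicit false

namespace Pool.Agent.T2

open Finset Pool.Agent.SWC Pool.Agent.SWK Pool.Agent.HOOK Pool.Agent.LV2

/-- an increasing enumeration of a finite set, continued beyond it -/
theorem exists_enum (V : Finset ℕ) : ∃ f : ℕ → ℕ, StrictMono f ∧ (range V.card).image f = V := by
  classical
  refine ⟨fun j => if h : j < V.card then V.orderEmbOfFin rfl ⟨j, h⟩ else V.sup id + 1 + j, ?_, ?_⟩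
  · refine strictMono_nat_of_lt_succ fun j => ?_
    by_cases h1 : j + 1 < V.card
    · have h0 : j < V.card := by omega
      simp only [h0, h1, dif_pos]
      exact (V.orderEmbOfFin rfl).strictMono (by
        rw [Fin.lt_def]
        exact Nat.lt_succ_self j)
    · by_cases h0 : j < V.card
      · simp only [h0, h1, dif_pos, dif_neg, not_false_iff]
        have h2 : V.orderEmbOfFin rfl ⟨j, h0⟩ ∈ V := Finset.orderEmbOfFin_mem V rfl ⟨j, h0⟩
        have h3 : id (V.orderEmbOfFin rfl ⟨j, h0⟩) ≤ V.sup id := Finset.le_sup h2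
        simp only [id] at h3
        omega
      · simp only [h0, h1, dif_neg, not_false_iff]
        omega
  · ext x
    simp only [Finset.mem_image, Finset.mem_range]
    constructor
    · rintro ⟨j, hj, rfl⟩
      rw [dif_pos hj]
      exact Finset.orderEmbOfFin_mem V rfl ⟨j, hj⟩
    · intro hx
      have h1 : x ∈ Set.range (V.orderEmbOfFin rfl) := by
        rw [Finset.range_orderEmbOfFin]
        exact hx
      obtain ⟨j, hj⟩ := h1
      refine ⟨j, j.2, ?_⟩
      rw [dif_pos j.2]
      exact hj

/-- level two for every vertex set -/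
theorem allV {g : ℕ → ℕ} (hg : Monotone g) (V : Finset ℕ) (N : ℕ) (hN : V.card ≤ N) :
    XX g (qq N) (xx N) V ∈ HC3 N V.card (eE g V) := by
  obtain ⟨f, hf, himg⟩ := exists_enum V
  obtain ⟨m', hm', hadj⟩ := tRELm g hg f hf V.card
  obtain ⟨hx, he⟩ := tRELX g m' f V.card hf hadj
  rw [himg] at hx he
  rw [hx, he]
  have h1 := UNI3Aux.all t_PUmul Pool.Agent.LV2.All.good Pool.Agent.LV2.All.conn3
    (tDROP Pool.Agent.LV2.All.spl tESZ) tRELm tRELX hm' V.card 0 N hN
  rw [zero_add, ← Finset.range_eq_Ico] at h1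
  exact h1

end Pool.Agent.T2
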