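import Pool.Agent.Lib.MP_263316_co.T2.RIGHT
import Pool.Agent.Lib.MP_263316_co.T2.ALLV
import Pool.Agent.Lib.MP_263316_co.SWK.AllE

/-!
MP_263316_co, project T2 (helper19): the theorem on two parts larger than two.
-/

set_option autoImplicit false

namespace Pool.Agent.T2

open Finset Pool.Agent.SWC Pool.Agent.SWK Pool.Agent.HOOK Pool.Agent.LV2

theorem aR_mono (m : ℕ → ℕ) {S U : Finset ℕ} (h : S ⊆ U) (u : ℕ) : aR m S u ≤ aR m U u :=
  Finset.card_le_card (Finset.filter_subset_filter _ h)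

theorem aL_mono (m : ℕ → ℕ) {S U : Finset ℕ} (h : S ⊆ U) (u : ℕ) : aL m S u ≤ aL m U u :=
  Finset.card_le_card (Finset.filter_subset_filter _ h)

open NICEEaux in
theorem im_univ (n : ℕ) : im (Finset.univ : Finset (Fin n)) = range n := by
  ext u
  rw [mem_im, Finset.mem_range]
  exact ⟨fun ⟨a, _, ha⟩ => ha ▸ a.2, fun hu => ⟨⟨u, hu⟩, Finset.mem_univ _, rfl⟩⟩

open FinAux NICEEaux in
theorem final : ∀ (n : ℕ) (h : Fin n → Fin n), Monotone h → (∀ i, i ≤ h i) →
    ((∀ r : Fin n, (r : ℕ) = 0 →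
        3 ≤ (Finset.univ.filter (fun v : Fin n => v ≤ h r)).card ∧
        ∀ u : Fin n, h r ≤ u → (Finset.univ.filter (fun v : Fin n => u < v ∧ v ≤ h u)).card ≤
          (Finset.univ.filter (fun v : Fin n => v < u ∧ u ≤ h v)).card + 1) ∨
      (∀ r : Fin n, (r : ℕ) + 1 = n →
        3 ≤ (Finset.univ.filter (fun v : Fin n => r ≤ h v)).card ∧
        ∀ u : Fin n, (∀ v : Fin n, v < u → h v < r) →
          (Finset.univ.filter (fun v : Fin n => v < u ∧ u ≤ h v)).card ≤
            (Finset.univ.filter (fun v : Fin n => u < v ∧ v ≤ h u)).card + 1)) →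
    ∀ E : ℕ, E = (Finset.univ.filter (fun p : Fin n × Fin n => p.1 < p.2 ∧ p.2 ≤ h p.1)).card →
    ∃ a : Nat.Partition n → Polynomial ℤ,
      ((∑ κ ∈ (Finset.univ.filter
            (fun κ : Fin n → Fin n => ∀ i j : Fin n, i < j → j ≤ h i → κ i ≠ κ j)),
          MvPolynomial.C (Polynomial.X ^ ((Finset.univ.filter
            (fun p : Fin n × Fin n => p.1 < p.2 ∧ p.2 ≤ h p.1 ∧ κ p.1 < κ p.2)).card))
            * ∏ i : Fin n, MvPolynomial.X (κ i) : MvPolynomial (Fin n) (Polynomial ℤ))
        = ∑ μ : Nat.Partition n, MvPolynomial.C (a μ) *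
            (μ.parts.map (fun k => MvPolynomial.esymm (Fin n) (Polynomial ℤ) k)).prod)
      ∧ ∀ μ : Nat.Partition n, Multiset.card (μ.parts.filter (fun p => 3 ≤ p)) ≤ 2 →
          (∀ i : ℕ, 0 ≤ (a μ).coeff i)
          ∧ (∀ i : ℕ, E < i → (a μ).coeff i = 0)
          ∧ (∀ i : ℕ, i ≤ E → (a μ).coeff i = (a μ).coeff (E - i))
          ∧ (∀ i j : ℕ, i ≤ j → 2 * j ≤ E → (a μ).coeff i ≤ (a μ).coeff j) := by
  intro n h hm hle hcond E hE
  have hg : Monotone (mh h) := mh_mono h hm
  have hmv : ∀ i : Fin n, mh h (i : ℕ) = (h i : ℕ) := fun i => mh_fin h i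
  have hsub : ∀ V : Finset ℕ, V ⊆ range n →
      XX (mh h) (qq n) (xx n) V ∈ HK 1 n V.card (eE (mh h) V) := by
    intro V hV
    have h1 := Finset.card_le_card hV
    rw [Finset.card_range] at h1
    exact allV hg V n h1
  have hX : XX (mh h) (qq n) (xx n) (range n) ∈ HK 2 n n (eE (mh h) (range n)) := by
    rcases Nat.eq_zero_or_pos n with hn | hn
    · subst hn
      have h1 : XX (mh h) (qq 0) (xx 0) (range 0) = 1 := by simp [XX]
      have h2 : eE (mh h) (range 0) = 0 := by simp [eE]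
      rw [h1, h2]
      exact AddSubmonoid.subset_closure ⟨0, 1, by simp, fun _ => one_mem_PU, by simp⟩
    · rcases hcond with hL | hR
      · obtain ⟨h3, hdeg⟩ := hL ⟨0, hn⟩ rfl
        have key := left 1 t_PUmul Pool.Agent.SWK.AllE.xf Pool.Agent.SWK.AllE.ke tEDK n (mh h) hg
          (range n) 0 (fun u _ => Nat.zero_le u) ?_ ?_
          (fun V hV => hsub V (hV.trans Finset.sdiff_subset))
        · rw [Finset.card_range] at key
          exact key
        · intro u' hu' hw
          obtain ⟨u, -, rfl⟩ := (mem_im Finset.univ u').1 ((im_univ n).symm ▸ hu')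
          refine le_trans (aR_mono _ Finset.sdiff_subset _) ?_
          rw [← im_univ n, aR_im h (mh h) hmv, aL_im h (mh h) hmv]
          refine hdeg u (Fin.le_def.2 (hw _ (Finset.mem_filter.2 ⟨?_, Or.inr ?_⟩)))
          · exact Finset.mem_range.2 (h ⟨0, hn⟩).2
          · exact le_of_eq (hmv ⟨0, hn⟩).symm
        · refine le_trans h3 ?_
          rw [← card_im]
          refine Finset.card_le_card fun x hx => ?_
          obtain ⟨u, hu, rfl⟩ := (mem_im _ x).1 hx
          refine Finset.mem_filter.2 ⟨Finset.mem_range.2 u.2, Or.inr ?_⟩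
          rw [show (0 : ℕ) = ((⟨0, hn⟩ : Fin n) : ℕ) from rfl, hmv]
          exact Fin.le_def.1 (Finset.mem_filter.1 hu).2
      · have hlt : n - 1 < n := by omega
        obtain ⟨h3, hdeg⟩ := hR ⟨n - 1, hlt⟩ (Nat.sub_add_cancel hn)
        have key := right 1 t_PUmul Pool.Agent.SWK.AllE.xf Pool.Agent.SWK.AllE.ke tEDK tREVm tREVX
          n (mh h) hg (range n) (n - 1)
          (fun u hu => by have := Finset.mem_range.1 hu; omega) ?_ ?_
          (fun V hV => hsub V (hV.trans Finset.sdiff_subset))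
        · rw [Finset.card_range] at key
          exact key
        · intro u' hu' hw
          obtain ⟨u, -, rfl⟩ := (mem_im Finset.univ u').1 ((im_univ n).symm ▸ hu')
          refine le_trans (aL_mono _ Finset.sdiff_subset _) ?_
          rw [← im_univ n, aR_im h (mh h) hmv, aL_im h (mh h) hmv]
          refine hdeg u fun v hv => ?_
          by_contra hc
          have h1 : (v : ℕ) ∈ NB' (mh h) (range n) (n - 1) := by
            refine Finset.mem_filter.2 ⟨Finset.mem_range.2 v.2, Or.inr ?_⟩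
            rw [hmv]
            exact Fin.le_def.1 (not_lt.1 hc)
          have h2 := hw _ h1
          have h4 := Fin.lt_def.1 hv
          omega
        · refine le_trans h3 ?_
          rw [← card_im]
          refine Finset.card_le_card fun x hx => ?_
          obtain ⟨u, hu, rfl⟩ := (mem_im _ x).1 hx
          refine Finset.mem_filter.2 ⟨Finset.mem_range.2 u.2, Or.inr ?_⟩
          rw [hmv]
          exact Fin.le_def.1 (Finset.mem_filter.1 hu).2
  rw [eE_mh, ← hE] at hX
  obtain ⟨a, ha, hpu⟩ := HK_part 2 n n E _ hX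
  exact ⟨a, (sum_eq h t_FUN).trans ha, fun μ hb => t_PUcoeff E (a μ) (hpu μ hb)⟩

end Pool.Agent.T2
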