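import Pool.Agent.Lib.MP_263316_co.LV2.UNI3
import Pool.Agent.Lib.MP_263316_co.SWK.CONE
import Pool.Agent.Lib.MP_263316_co.SWK.REVC

/-!
MP_263316_co, project T2 (helper19): the cones `HK k` (coefficients with at most `k` parts larger
than two).
-/

set_option autoImplicit false

namespace Pool.Agent.T2

open Finset Pool.Agent.SWC Pool.Agent.SWK Pool.Agent.HOOK Pool.Agent.LV2

/-- sums of `p e_l`, `l` of weight `n`, with `p ∈ PU d` if `l` has at most `k` parts larger than 2 -/
noncomputable def HK (k N n d : ℕ) : AddSubmonoid (AN N) :=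
  AddSubmonoid.closure {f | ∃ (l : Multiset ℕ) (p : Polynomial ℤ), l.sum = n ∧
    (big3 l ≤ k → p ∈ PU d) ∧ f = MvPolynomial.C p * (l.map (es (xx N))).prod}

theorem HK_one (N n d : ℕ) : HC3 N n d = HK 1 N n d := rfl

/-- multiplication by `p e_s`, `s ≥ 3` -/
theorem HK_step (hmul : S_PUmul) (k N n s d d' : ℕ) (hs : 3 ≤ s) (p : Polynomial ℤ) (hp : p ∈ PU d)
    (f : AN N) (hf : f ∈ HK k N n d') :
    (MvPolynomial.C p * es (xx N) s) * f ∈ HK (k + 1) N (s + n) (d + d') := by
  refine AddSubmonoid.closure_induction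
    (motive := fun f _ => (MvPolynomial.C p * es (xx N) s) * f ∈ HK (k + 1) N (s + n) (d + d'))
    ?_ ?_ ?_ hf
  · rintro f ⟨l, p', hl, hp', rfl⟩
    refine AddSubmonoid.subset_closure ⟨s ::ₘ l, p * p', ?_, fun hb => ?_, ?_⟩
    · rw [Multiset.sum_cons, hl]
    · have hb1 : big3 (s ::ₘ l) = big3 l + 1 := by
        unfold big3
        rw [Multiset.filter_cons_of_pos (p := fun p => 3 ≤ p) l hs, Multiset.card_cons]
      exact hmul d d' p p' hp (hp' (by omega))
    · rw [Multiset.map_cons, Multiset.prod_cons, map_mul]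
      ring
  · rw [mul_zero]; exact AddSubmonoid.zero_mem _
  · intro a b _ _ ha hb
    rw [mul_add]; exact AddSubmonoid.add_mem _ ha hb

private theorem es_zero' {R : Type} [CommRing R] {N : ℕ} (x : Fin N → R) : es x 0 = 1 := by
  simp [es]

private theorem filter_prod' {A : Type} [CommMonoid A] (g : ℕ → A) (h : g 0 = 1)
    (l : Multiset ℕ) : ((l.filter (fun k => k ≠ 0)).map g).prod = (l.map g).prod := by
  induction l using Multiset.induction_on with
  | empty => rfl
  | cons a l ih =>
    rcases Nat.eq_zero_or_pos a with rfl | ha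
    · rw [Multiset.filter_cons_of_neg _ (by simp), Multiset.map_cons, Multiset.prod_cons, h,
        one_mul, ih]
    · rw [Multiset.filter_cons_of_pos _ (by omega), Multiset.map_cons, Multiset.map_cons,
        Multiset.prod_cons, Multiset.prod_cons, ih]

private theorem big3_filter (l : Multiset ℕ) : big3 (l.filter (fun k => k ≠ 0)) = big3 l := by
  unfold big3
  rw [Multiset.filter_filter]
  congr 1
  refine Multiset.filter_congr fun k _ => ?_
  constructor
  · rintro ⟨h, _⟩; exact h
  · intro h; exact ⟨h, by omega⟩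

/-- expansion over partitions -/
theorem HK_part (k N n d : ℕ) (f : AN N) (hf : f ∈ HK k N n d) :
    ∃ a : n.Partition → Polynomial ℤ,
      f = ∑ μ : n.Partition, MvPolynomial.C (a μ) * (μ.parts.map (es (xx N))).prod ∧
      ∀ μ : n.Partition, big3 μ.parts ≤ k → a μ ∈ PU d := by
  classical
  induction hf using AddSubmonoid.closure_induction with
  | mem f hf =>
    obtain ⟨l, p, hl, hp, rfl⟩ := hf
    refine ⟨Pi.single (Nat.Partition.ofSums n l hl) p, ?_, fun μ hb => ?_⟩
    · rw [Finset.sum_eq_single (Nat.Partition.ofSums n l hl)]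
      · rw [Pi.single_eq_same]
        congr 1
        exact (filter_prod' (es (xx N)) (es_zero' (xx N)) l).symm
      · intro μ _ hμ
        rw [Pi.single_eq_of_ne hμ, map_zero, zero_mul]
      · intro h
        exact absurd (Finset.mem_univ _) h
    · by_cases hμ : μ = Nat.Partition.ofSums n l hl
      · rw [hμ, Pi.single_eq_same]
        apply hp
        rw [hμ] at hb
        change big3 (l.filter (fun k => k ≠ 0)) ≤ k at hb
        rwa [big3_filter] at hb
      · rw [Pi.single_eq_of_ne hμ]
        exact (PU d).zero_mem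
  | zero =>
    refine ⟨0, ?_, fun μ _ => (PU d).zero_mem⟩
    simp
  | add f g _ _ ihf ihg =>
    obtain ⟨a, ha, ha'⟩ := ihf
    obtain ⟨b, hb, hb'⟩ := ihg
    refine ⟨a + b, ?_, fun μ h => (PU d).add_mem (ha' μ h) (hb' μ h)⟩
    rw [ha, hb, ← Finset.sum_add_distrib]
    refine Finset.sum_congr rfl fun μ _ => ?_
    rw [Pi.add_apply, map_add, add_mul]

/-- reversing the variables -/
private noncomputable def φ (N : ℕ) : AN N →ₐ[Polynomial ℤ] AN N :=
  MvPolynomial.rename (Fin.revPerm : Equiv.Perm (Fin N))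

private theorem φ_es (N d : ℕ) : φ N (es (xx N) d) = es (xx N) d :=
  MvPolynomial.rename_esymm (Fin N) (Polynomial ℤ) d (Fin.revPerm : Equiv.Perm (Fin N))

private theorem φ_xx (N : ℕ) (k : Fin N) : φ N (xx N k) = xx N (Fin.rev k) := by
  rw [φ, xx, MvPolynomial.rename_X]
  rfl

private theorem φ_qq (N : ℕ) : φ N (qq N) = qq N := by
  rw [φ, qq, MvPolynomial.rename_C]

private theorem φ_cone (k N n d : ℕ) (f : AN N) (hf : f ∈ HK k N n d) : φ N f = f := by
  induction hf using AddSubmonoid.closure_induction with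
  | mem f hf =>
    obtain ⟨l, p, -, -, rfl⟩ := hf
    rw [map_mul, map_multiset_prod, Multiset.map_map]
    congr 1
    · rw [φ, MvPolynomial.rename_C]
    · congr 1
      exact Multiset.map_congr rfl fun k _ => φ_es N k
  | zero => exact map_zero _
  | add f g _ _ hf hg => rw [map_add, hf, hg]

private theorem φ_XX (N : ℕ) (m : ℕ → ℕ) (x : Fin N → AN N) (V : Finset ℕ) :
    φ N (XX m (qq N) x V) = XX m (qq N) (fun k => φ N (x k)) V := by
  have h := Z_map (φ N : AN N →+* AN N) m (qq N) V (fun _ k => x k)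
  unfold XX
  rw [RingHom.coe_coe] at h
  rw [h, φ_qq]

theorem HK_rev (k N n d : ℕ) (m' : ℕ → ℕ) (V : Finset ℕ) :
    XX m' (qq N) (xx N) V ∈ HK k N n d ↔
      XX m' (qq N) (fun k => xx N (Fin.rev k)) V ∈ HK k N n d := by
  have h1 : φ N (XX m' (qq N) (xx N) V) = XX m' (qq N) (fun k => xx N (Fin.rev k)) V := by
    rw [φ_XX]
    simp only [φ_xx]
  have h2 : φ N (XX m' (qq N) (fun k => xx N (Fin.rev k)) V) = XX m' (qq N) (xx N) V := by
    rw [φ_XX]
    simp only [φ_xx, Fin.rev_rev]
  constructor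
  · intro h
    rw [← h1, φ_cone k N n d _ h]
    exact h
  · intro h
    rw [← h2, φ_cone k N n d _ h]
    exact h

end Pool.Agent.T2
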