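import Pool.Agent.Lib.MP_263316_co.T2.HK

/-!
MP_263316_co, project T2 (helper19): one peeling step raises the number of large parts by one.
-/

set_option autoImplicit false

namespace Pool.Agent.T2

open Finset Pool.Agent.SWC Pool.Agent.SWK Pool.Agent.HOOK Pool.Agent.LV2

open CONEaux in
theorem leftMain {K : Type} [Field K] (k N : ℕ) (φ : AN N →+* K) (hinj : Function.Injective φ)
    (hmul : S_PUmul) (hXF : XFc)
    (hPos : ∀ (m : ℕ → ℕ), Monotone m → ∀ (B S : Finset ℕ), Ini m B S → PosE m B S)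
    (hEDK : S_EDK)
    (m : ℕ → ℕ) (hm : Monotone m) (U : Finset ℕ) (r : ℕ)
    (hmin : ∀ u ∈ U, r ≤ u) (hDeg : DegE m (NB m U r) U) (h3 : 3 ≤ (NB m U r).card)
    (hV : ∀ V ⊆ U \ NB m U r, XX m (qq N) (xx N) V ∈ HK k N V.card (eE m V)) :
    XX m (qq N) (xx N) U ∈ HK (k + 1) N U.card (eE m U) := by
  have hIni := ini m hm U r hmin
  have hX0 : qq N ≠ 0 := by
    intro h
    have h2 : (MvPolynomial.C (Polynomial.X : Polynomial ℤ) : AN N) = MvPolynomial.C 0 := by
      rw [map_zero]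
      exact h
    exact Polynomial.X_ne_zero (MvPolynomial.C_injective (Fin N) _ h2)
  have hX1 : qq N ≠ 1 := by
    intro h
    have h2 : (MvPolynomial.C (Polynomial.X : Polynomial ℤ) : AN N) =
        MvPolynomial.C (Polynomial.C 1) := by
      rw [map_one, map_one]
      exact h
    exact Polynomial.X_ne_C 1 (MvPolynomial.C_injective (Fin N) _ h2)
  have hq0 : φ (qq N) ≠ 0 := by
    intro h
    exact hX0 (hinj (by rw [h, map_zero]))
  have hq1 : φ (qq N) ≠ 1 := by
    intro h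
    exact hX1 (hinj (by rw [h, map_one]))
  have hexp := hXF K m hm _ hq0 hq1 N (fun k => φ (xx N k)) (NB m U r) U hIni
  have hp : ∀ S ∈ U.powerset.filter (fun S => NB m U r ⊆ S), ∃ p ∈ PU
      (∑ u ∈ S, (aR m (U \ S) u + (1 + aL m U u) - 1)),
      KS m (φ (qq N)) (NB m U r) (fun u => φ (qq N) ^ aR m (U \ S) u)
        (fun u => φ (qq N) ^ (1 + aL m U u)) S =
      (1 - φ (qq N)) ^ (NB m U r).card * Polynomial.aeval (φ (qq N)) p := by
    intro S hS
    obtain ⟨hSU, hBS⟩ := Finset.mem_filter.1 hS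
    rw [Finset.mem_powerset] at hSU
    have hIniS : Ini m (NB m U r) S :=
      ⟨hBS, fun b hb u hu hub => hIni.2.1 b hb u (hSU hu) hub, hIni.2.2⟩
    exact hPos m hm (NB m U r) S hIniS K _ hq0 hq1
      (fun u => aR m (U \ S) u) (fun u => 1 + aL m U u)
      (admE m hm hIni hBS hSU hDeg)
  choose! p hp1 hp2 using hp
  have hXX : XX m (qq N) (xx N) U = ∑ S ∈ U.powerset.filter (fun S => NB m U r ⊆ S),
      (MvPolynomial.C (p S) * es (xx N) S.card) * XX m (qq N) (xx N) (U \ S) := by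
    apply hinj
    have hne : (1 - φ (qq N)) ^ (NB m U r).card ≠ 0 :=
      pow_ne_zero _ (sub_ne_zero.2 hq1.symm)
    refine mul_left_cancel₀ hne ?_
    rw [CONEaux.XX_map] at hexp
    rw [hexp, map_sum, Finset.mul_sum]
    refine Finset.sum_congr rfl fun S hS => ?_
    rw [hp2 S hS, CONEaux.XX_map, CONEaux.es_map, CONEaux.aev, map_mul, map_mul]
    ring
  rw [hXX]
  refine sum_mem fun S hS => ?_
  obtain ⟨hSU, hBS⟩ := Finset.mem_filter.1 hS
  rw [Finset.mem_powerset] at hSU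
  have h2 := hV (U \ S) (Finset.sdiff_subset_sdiff (Finset.Subset.refl U) hBS)
  have h3' := HK_step hmul k N _ S.card _ _ (le_trans h3 (Finset.card_le_card hBS)) (p S)
    (hp1 S hS) _ h2
  rw [hEDK m U S hSU] at h3'
  have h4 : S.card + (U \ S).card = U.card := by
    rw [add_comm]
    exact Finset.card_sdiff_add_card_eq_card hSU
  rw [h4] at h3'
  exact h3'

theorem left (k : ℕ) (hmul : S_PUmul) (hXF : XFc)
    (hPos : ∀ (m : ℕ → ℕ), Monotone m → ∀ (B S : Finset ℕ), Ini m B S → PosE m B S)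
    (hEDK : S_EDK) (N : ℕ)
    (m : ℕ → ℕ) (hm : Monotone m) (U : Finset ℕ) (r : ℕ)
    (hmin : ∀ u ∈ U, r ≤ u) (hDeg : DegE m (NB m U r) U) (h3 : 3 ≤ (NB m U r).card)
    (hV : ∀ V ⊆ U \ NB m U r, XX m (qq N) (xx N) V ∈ HK k N V.card (eE m V)) :
    XX m (qq N) (xx N) U ∈ HK (k + 1) N U.card (eE m U) :=
  leftMain k N (algebraMap (AN N) (FractionRing (AN N)))
    (IsFractionRing.injective (AN N) (FractionRing (AN N))) hmul hXF hPos hEDK m hm U r hmin
    hDeg h3 hV

end Pool.Agent.T2
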