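import Pool.Agent.Lib.MP_263316_co.T2.LEFT
import Pool.Agent.Lib.MP_263316_co.SWK.CONRE

/-!
MP_263316_co, project T2 (helper19): the peeling step at the right end.
-/

set_option autoImplicit false

namespace Pool.Agent.T2

open Finset Pool.Agent.SWC Pool.Agent.SWK Pool.Agent.HOOK Pool.Agent.LV2

theorem right (k : ℕ) (hmul : S_PUmul) (hXF : XFc)
    (hPos : ∀ (m : ℕ → ℕ), Monotone m → ∀ (B S : Finset ℕ), Ini m B S → PosE m B S)
    (hEDK : S_EDK) (hRm : S_REVm) (hRX : S_REVX) (N : ℕ)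
    (m : ℕ → ℕ) (hm : Monotone m) (U : Finset ℕ) (r : ℕ)
    (hmax : ∀ u ∈ U, u ≤ r)
    (hdeg : ∀ u ∈ U, (∀ w ∈ NB' m U r, u ≤ w) → aL m (U \ NB' m U r) u ≤ aR m U u + 1)
    (h3 : 3 ≤ (NB' m U r).card)
    (hV : ∀ V ⊆ U \ NB' m U r, XX m (qq N) (xx N) V ∈ HK k N V.card (eE m V)) :
    XX m (qq N) (xx N) U ∈ HK (k + 1) N U.card (eE m U) := by
  obtain ⟨m', hm', hadj⟩ := hRm m hm r
  have key : ∀ (k : ℕ) (V : Finset ℕ), (∀ u ∈ V, u ≤ r) → ∀ n d : ℕ,
      (XX m' (qq N) (xx N) (V.image (fun u => r - u)) ∈ HK k N n d ↔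
        XX m (qq N) (xx N) V ∈ HK k N n d) := by
    intro k V hVr n d
    rw [HK_rev k N n d m' (V.image (fun u => r - u)),
      (hRX m m' r hadj V hVr).1 (AN N) N (qq N) (xx N)]
  obtain ⟨_, h2, h3'⟩ := hRX m m' r hadj U hmax
  have hnb := CONREaux.nb_rev m m' r hadj U hmax
  have hsub : (NB' m U r).image (fun u => r - u) ⊆ NB m' (U.image (fun u => r - u)) 0 := by
    intro x hx
    obtain ⟨w, hw, rfl⟩ := Finset.mem_image.mp hx
    exact CONREaux.mem_nb m m' r hadj U hmax w hw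
  have hcard : 3 ≤ (NB m' (U.image (fun u => r - u)) 0).card := by
    refine le_trans ?_ (Finset.card_le_card hsub)
    rw [CONREaux.card_rev r (NB' m U r) (fun u hu => hmax u (Finset.mem_filter.mp hu).1)]
    exact h3
  have hmain := left k hmul hXF hPos hEDK N m' hm' (U.image (fun u => r - u)) 0
    (fun u _ => Nat.zero_le u) (by
      intro u' hu' hlast
      obtain ⟨u, hu, rfl⟩ := Finset.mem_image.mp hu'
      rw [hnb]
      have h4 := (h2 (U \ NB' m U r) Finset.sdiff_subset u hu).2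
      have h5 := (h2 U Finset.Subset.rfl u hu).1
      rw [h4, h5]
      refine hdeg u hu ?_
      intro w hw
      have h6 := hlast (r - w) (CONREaux.mem_nb m m' r hadj U hmax w hw)
      have h7 := hmax u hu
      have h8 := hmax w (Finset.mem_filter.mp hw).1
      omega) hcard (by
      intro V' hV'
      rw [hnb] at hV'
      obtain ⟨V, hVs, rfl⟩ := Finset.subset_image_iff.mp hV'
      have hVr : ∀ u ∈ V, u ≤ r := fun u hu => hmax u (Finset.mem_sdiff.mp (hVs hu)).1
      rw [CONREaux.card_rev r V hVr, (hRX m m' r hadj V hVr).2.2, key k V hVr]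
      exact hV V hVs)
  rw [CONREaux.card_rev r U hmax, h3', key (k + 1) U hmax] at hmain
  exact hmain

end Pool.Agent.T2
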